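import Mathlib

/-!
# A benzenoid system with a hexagon of ring bond order 3

The regular hexagonal lattice is drawn as a brick wall: its vertices are the points of `ℤ × ℤ`,
horizontally neighbouring points are joined, and `(x, y)` is joined to `(x, y + 1)` exactly when
`x + y` is even.  Its hexagons are the bricks; the brick with lower left corner `(x, y)`
(with `x + y` even) has the six vertices
`(x,y), (x+1,y), (x+2,y), (x+2,y+1), (x+1,y+1), (x,y+1)`.
-/

namespace Pool.Agent.Results.MP_64a46a_co.RingBondOrderThree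

/-- Points of the lattice. -/
abbrev Pt := ℤ × ℤ

/-- The hexagonal lattice as a graph (brick wall drawing). -/
def hexLattice : SimpleGraph Pt where
  Adj p q :=
    (p.2 = q.2 ∧ (q.1 = p.1 + 1 ∨ p.1 = q.1 + 1)) ∨
    (p.1 = q.1 ∧ ((q.2 = p.2 + 1 ∧ Even (p.1 + p.2)) ∨ (p.2 = q.2 + 1 ∧ Even (q.1 + q.2))))
  symm := ⟨by
    rintro ⟨a, b⟩ ⟨c, d⟩ h
    rcases h with ⟨h1, h2⟩ | ⟨h1, h2⟩
    · left; exact ⟨h1.symm, h2.symm⟩
    · right; exact ⟨h1.symm, h2.symm⟩⟩
  loopless := ⟨by
    rintro ⟨a, b⟩ h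
    rcases h with ⟨_, h2 | h2⟩ | ⟨_, ⟨h2, _⟩ | ⟨h2, _⟩⟩ <;> simp at h2⟩

instance : DecidableRel hexLattice.Adj := fun p q => by
  unfold hexLattice; infer_instance

/-- The six vertices of the hexagon (brick) with lower left corner `c`. -/
def hexVerts (c : Pt) : Finset Pt :=
  {(c.1, c.2), (c.1 + 1, c.2), (c.1 + 2, c.2), (c.1 + 2, c.2 + 1), (c.1 + 1, c.2 + 1),
    (c.1, c.2 + 1)}

/-- The six edges of the hexagon (brick) with lower left corner `c`. -/
def hexEdges (c : Pt) : Finset (Sym2 Pt) :=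
  {s((c.1, c.2), (c.1 + 1, c.2)), s((c.1 + 1, c.2), (c.1 + 2, c.2)),
    s((c.1 + 2, c.2), (c.1 + 2, c.2 + 1)), s((c.1 + 2, c.2 + 1), (c.1 + 1, c.2 + 1)),
    s((c.1 + 1, c.2 + 1), (c.1, c.2 + 1)), s((c.1, c.2 + 1), (c.1, c.2))}

/-- `H` is the set of hexagons inside a cycle `C` of the hexagonal lattice: `C` is a cycle, `H` is
a finite set of hexagons, and the edges of `C` are exactly the edges lying on exactly one hexagon
of `H`. -/
def IsBenzenoid (H : Finset Pt) : Prop :=
  (∀ c ∈ H, Even (c.1 + c.2)) ∧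
  ∃ (u : Pt) (C : hexLattice.Walk u u), C.IsCycle ∧
    ∀ e : Sym2 Pt, e ∈ C.edges ↔ (H.filter (fun c => e ∈ hexEdges c)).card = 1

/-- The vertices of the benzenoid system with hexagon set `H`. -/
def verts (H : Finset Pt) : Finset Pt := H.biUnion hexVerts

/-- The edges of the benzenoid system with hexagon set `H`. -/
def edges (H : Finset Pt) : Finset (Sym2 Pt) := H.biUnion hexEdges

/-- The Kekule structures (perfect matchings) of the benzenoid system with hexagon set `H`. -/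
def kekule (H : Finset Pt) : Finset (Finset (Sym2 Pt)) :=
  (edges H).powerset.filter (fun M => ∀ v ∈ verts H, (M.filter (fun e => v ∈ e)).card = 1)

/-- The Pauling bond order of the edge `e`. -/
noncomputable def bondOrder (H : Finset Pt) (e : Sym2 Pt) : ℚ :=
  ((kekule H).filter (fun M => e ∈ M)).card / (kekule H).card

/-- The ring bond order of the hexagon `h`. -/
noncomputable def ringBondOrder (H : Finset Pt) (h : Pt) : ℚ :=
  ∑ e ∈ hexEdges h, bondOrder H e

/-! ### The example -/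

/-- The eight hexagons. -/
def H₀ : Finset Pt := {(6, 0), (1, 1), (3, 1), (5, 1), (2, 2), (6, 2), (5, 3), (7, 3)}

/-- One perfect matching. -/
def M₀ : Finset (Sym2 Pt) :=
  {s((1, 1), (1, 2)), s((2, 1), (3, 1)), s((2, 2), (2, 3)), s((3, 2), (4, 2)), s((3, 3), (4, 3)),
    s((4, 1), (5, 1)), s((5, 2), (6, 2)), s((5, 3), (5, 4)), s((6, 0), (6, 1)), s((6, 3), (7, 3)),
    s((6, 4), (7, 4)), s((7, 0), (8, 0)), s((7, 1), (8, 1)), s((7, 2), (8, 2)), s((8, 3), (9, 3)),
    s((8, 4), (9, 4))}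

/-- The boundary cycle. -/
def C₀ : hexLattice.Walk ((6, 0) : Pt) ((6, 0) : Pt) :=
  .cons (v := (7, 0)) (by decide) <| .cons (v := (8, 0)) (by decide) <|
  .cons (v := (8, 1)) (by decide) <| .cons (v := (7, 1)) (by decide) <|
  .cons (v := (7, 2)) (by decide) <| .cons (v := (8, 2)) (by decide) <|
  .cons (v := (8, 3)) (by decide) <| .cons (v := (9, 3)) (by decide) <|
  .cons (v := (9, 4)) (by decide) <| .cons (v := (8, 4)) (by decide) <|
  .cons (v := (7, 4)) (by decide) <| .cons (v := (6, 4)) (by decide) <|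
  .cons (v := (5, 4)) (by decide) <| .cons (v := (5, 3)) (by decide) <|
  .cons (v := (6, 3)) (by decide) <| .cons (v := (6, 2)) (by decide) <|
  .cons (v := (5, 2)) (by decide) <| .cons (v := (4, 2)) (by decide) <|
  .cons (v := (4, 3)) (by decide) <| .cons (v := (3, 3)) (by decide) <|
  .cons (v := (2, 3)) (by decide) <| .cons (v := (2, 2)) (by decide) <|
  .cons (v := (1, 2)) (by decide) <| .cons (v := (1, 1)) (by decide) <|
  .cons (v := (2, 1)) (by decide) <| .cons (v := (3, 1)) (by decide) <|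
  .cons (v := (4, 1)) (by decide) <| .cons (v := (5, 1)) (by decide) <|
  .cons (v := (6, 1)) (by decide) <| .cons (v := (6, 0)) (by decide) <| .nil

lemma cycle₀ : C₀.IsCycle := by
  rw [SimpleGraph.Walk.isCycle_def]
  refine ⟨?_, ?_, ?_⟩
  · rw [SimpleGraph.Walk.isTrail_def]
    simp only [C₀, SimpleGraph.Walk.edges_cons, SimpleGraph.Walk.edges_nil]
    decide +kernel
  · simp [C₀]
  · simp only [C₀, SimpleGraph.Walk.support_cons, SimpleGraph.Walk.support_nil, List.tail_cons]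
    decide +kernel

lemma edges_C₀ : C₀.edges = [s((6, 0), (7, 0)), s((7, 0), (8, 0)), s((8, 0), (8, 1)),
    s((8, 1), (7, 1)), s((7, 1), (7, 2)), s((7, 2), (8, 2)), s((8, 2), (8, 3)), s((8, 3), (9, 3)),
    s((9, 3), (9, 4)), s((9, 4), (8, 4)), s((8, 4), (7, 4)), s((7, 4), (6, 4)), s((6, 4), (5, 4)),
    s((5, 4), (5, 3)), s((5, 3), (6, 3)), s((6, 3), (6, 2)), s((6, 2), (5, 2)), s((5, 2), (4, 2)),
    s((4, 2), (4, 3)), s((4, 3), (3, 3)), s((3, 3), (2, 3)), s((2, 3), (2, 2)), s((2, 2), (1, 2)),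
    s((1, 2), (1, 1)), s((1, 1), (2, 1)), s((2, 1), (3, 1)), s((3, 1), (4, 1)), s((4, 1), (5, 1)),
    s((5, 1), (6, 1)), s((6, 1), (6, 0))] := by
  simp only [C₀, SimpleGraph.Walk.edges_cons, SimpleGraph.Walk.edges_nil]

lemma benzenoid₀ : IsBenzenoid H₀ := by
  refine ⟨by decide +kernel, (6, 0), C₀, cycle₀, ?_⟩
  rw [edges_C₀]
  intro e
  constructor
  · intro he
    revert e
    decide +kernel
  · intro he
    have hne : (H₀.filter (fun c => e ∈ hexEdges c)).Nonempty := by
      rw [← Finset.card_pos, he]; norm_num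
    obtain ⟨c, hc⟩ := hne
    rw [Finset.mem_filter] at hc
    have h2 : ∀ c ∈ H₀, ∀ e ∈ hexEdges c,
        (H₀.filter (fun c => e ∈ hexEdges c)).card = 1 → e ∈ [s(((6 : ℤ), (0 : ℤ)), ((7 : ℤ), (0 : ℤ))), s((7, 0), (8, 0)), s((8, 0), (8, 1)),
    s((8, 1), (7, 1)), s((7, 1), (7, 2)), s((7, 2), (8, 2)), s((8, 2), (8, 3)), s((8, 3), (9, 3)),
    s((9, 3), (9, 4)), s((9, 4), (8, 4)), s((8, 4), (7, 4)), s((7, 4), (6, 4)), s((6, 4), (5, 4)),
    s((5, 4), (5, 3)), s((5, 3), (6, 3)), s((6, 3), (6, 2)), s((6, 2), (5, 2)), s((5, 2), (4, 2)),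
    s((4, 2), (4, 3)), s((4, 3), (3, 3)), s((3, 3), (2, 3)), s((2, 3), (2, 2)), s((2, 2), (1, 2)),
    s((1, 2), (1, 1)), s((1, 1), (2, 1)), s((2, 1), (3, 1)), s((3, 1), (4, 1)), s((4, 1), (5, 1)),
    s((5, 1), (6, 1)), s((6, 1), (6, 0))] := by
      decide +kernel
    exact h2 c hc.1 e hc.2 he

lemma kekule_nonempty₀ : (kekule H₀).Nonempty := by
  refine ⟨M₀, ?_⟩
  rw [kekule, Finset.mem_filter, Finset.mem_powerset]
  constructor
  · decide +kernel
  · decide +kernel

/-- The vertex condition at `v`, written as a sum over the list of edges at `v`. -/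
lemma star_eq {M : Finset (Sym2 Pt)} (hM : M ∈ kekule H₀) {v : Pt} (hv : v ∈ verts H₀)
    (L : List (Sym2 Pt)) (hL : L.Nodup) (hS : ∀ c ∈ H₀, ∀ e ∈ hexEdges c, v ∈ e → e ∈ L)
    (hS' : ∀ e ∈ L, v ∈ e)
    (x : Sym2 Pt → ℕ) (hx : x = fun e => if e ∈ M then 1 else 0) :
    (L.map x).sum = 1 := by
  subst hx
  rw [kekule, Finset.mem_filter, Finset.mem_powerset] at hM
  obtain ⟨hsub, hM⟩ := hM
  have h1 := hM v hv
  have h2 : M.filter (fun e => v ∈ e) = L.toFinset.filter (fun e => e ∈ M) := by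
    ext e
    simp only [Finset.mem_filter, List.mem_toFinset]
    constructor
    · rintro ⟨h1, h2⟩
      have h3 := hsub h1
      rw [edges, Finset.mem_biUnion] at h3
      obtain ⟨c, hc, hec⟩ := h3
      exact ⟨hS c hc e hec h2, h1⟩
    · rintro ⟨h1, h2⟩
      exact ⟨h2, hS' e h1⟩
  rw [h2, Finset.card_filter, List.sum_toFinset _ hL] at h1
  exact h1

/-- Every perfect matching contains exactly three edges of the hexagon `(6, 0)`. -/
lemma three {M : Finset (Sym2 Pt)} (hM : M ∈ kekule H₀) :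
    ∑ e ∈ hexEdges (6, 0), (if e ∈ M then 1 else 0) = 3 := by
  obtain ⟨x, hx⟩ : ∃ x : Sym2 Pt → ℕ, x = fun e => if e ∈ M then 1 else 0 := ⟨_, rfl⟩
  change ∑ e ∈ hexEdges (6, 0), (fun e => if e ∈ M then 1 else 0) e = 3
  rw [← hx]
  have h12 := star_eq hM (v := (1, 2)) (by decide +kernel)
    [s(((1, 1) : Pt), (1, 2)), s(((1, 2) : Pt), (2, 2))] (by decide +kernel) (by decide +kernel) (by decide +kernel) x hx
  have h21 := star_eq hM (v := (2, 1)) (by decide +kernel)
    [s(((1, 1) : Pt), (2, 1)), s(((2, 1) : Pt), (3, 1))] (by decide +kernel) (by decide +kernel) (by decide +kernel) x hx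
  have h23 := star_eq hM (v := (2, 3)) (by decide +kernel)
    [s(((2, 2) : Pt), (2, 3)), s(((2, 3) : Pt), (3, 3))] (by decide +kernel) (by decide +kernel) (by decide +kernel) x hx
  have h32 := star_eq hM (v := (3, 2)) (by decide +kernel)
    [s(((2, 2) : Pt), (3, 2)), s(((3, 1) : Pt), (3, 2)), s(((3, 2) : Pt), (4, 2))] (by decide +kernel) (by decide +kernel) (by decide +kernel) x hx
  have h41 := star_eq hM (v := (4, 1)) (by decide +kernel)
    [s(((3, 1) : Pt), (4, 1)), s(((4, 1) : Pt), (5, 1))] (by decide +kernel) (by decide +kernel) (by decide +kernel) x hx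
  have h43 := star_eq hM (v := (4, 3)) (by decide +kernel)
    [s(((3, 3) : Pt), (4, 3)), s(((4, 2) : Pt), (4, 3))] (by decide +kernel) (by decide +kernel) (by decide +kernel) x hx
  have h11 := star_eq hM (v := (1, 1)) (by decide +kernel)
    [s(((1, 1) : Pt), (1, 2)), s(((1, 1) : Pt), (2, 1))] (by decide +kernel) (by decide +kernel) (by decide +kernel) x hx
  have h22 := star_eq hM (v := (2, 2)) (by decide +kernel)
    [s(((1, 2) : Pt), (2, 2)), s(((2, 2) : Pt), (2, 3)), s(((2, 2) : Pt), (3, 2))] (by decide +kernel) (by decide +kernel) (by decide +kernel) x hx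
  have h31 := star_eq hM (v := (3, 1)) (by decide +kernel)
    [s(((2, 1) : Pt), (3, 1)), s(((3, 1) : Pt), (3, 2)), s(((3, 1) : Pt), (4, 1))] (by decide +kernel) (by decide +kernel) (by decide +kernel) x hx
  have h33 := star_eq hM (v := (3, 3)) (by decide +kernel)
    [s(((2, 3) : Pt), (3, 3)), s(((3, 3) : Pt), (4, 3))] (by decide +kernel) (by decide +kernel) (by decide +kernel) x hx
  have h42 := star_eq hM (v := (4, 2)) (by decide +kernel)
    [s(((3, 2) : Pt), (4, 2)), s(((4, 2) : Pt), (4, 3)), s(((4, 2) : Pt), (5, 2))] (by decide +kernel) (by decide +kernel) (by decide +kernel) x hx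
  have h51 := star_eq hM (v := (5, 1)) (by decide +kernel)
    [s(((4, 1) : Pt), (5, 1)), s(((5, 1) : Pt), (5, 2)), s(((5, 1) : Pt), (6, 1))] (by decide +kernel) (by decide +kernel) (by decide +kernel) x hx
  have h70 := star_eq hM (v := (7, 0)) (by decide +kernel)
    [s(((6, 0) : Pt), (7, 0)), s(((7, 0) : Pt), (8, 0))] (by decide +kernel) (by decide +kernel) (by decide +kernel) x hx
  have h81 := star_eq hM (v := (8, 1)) (by decide +kernel)
    [s(((7, 1) : Pt), (8, 1)), s(((8, 0) : Pt), (8, 1))] (by decide +kernel) (by decide +kernel) (by decide +kernel) x hx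
  have h61 := star_eq hM (v := (6, 1)) (by decide +kernel)
    [s(((5, 1) : Pt), (6, 1)), s(((6, 0) : Pt), (6, 1)), s(((6, 1) : Pt), (7, 1))] (by decide +kernel) (by decide +kernel) (by decide +kernel) x hx
  have hh : hexEdges (6, 0) = [s(((6, 0) : Pt), (7, 0)), s(((7, 0) : Pt), (8, 0)),
      s(((8, 0) : Pt), (8, 1)), s(((7, 1) : Pt), (8, 1)), s(((6, 1) : Pt), (7, 1)),
      s(((6, 0) : Pt), (6, 1))].toFinset := by decide +kernel
  rw [hh, List.sum_toFinset _ (by decide +kernel)]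
  simp only [List.map_cons, List.map_nil, List.sum_cons, List.sum_nil, add_zero] at h12 h21 h23 h32 h41 h43 h11 h22 h31 h33 h42 h51 h70 h81 h61 ⊢
  omega

/-- If every member of `K` contains exactly three edges of `E`, the bond orders sum to `3`. -/
lemma avg (K : Finset (Finset (Sym2 Pt))) (E : Finset (Sym2 Pt)) (hne : K.Nonempty)
    (h3 : ∀ M ∈ K, ∑ e ∈ E, (if e ∈ M then 1 else 0) = 3) :
    ∑ e ∈ E, (((K.filter (fun M => e ∈ M)).card : ℚ) / (K.card : ℚ)) = 3 := by
  have hK : (K.card : ℚ) ≠ 0 := by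
    exact_mod_cast (Finset.card_pos.mpr hne).ne'
  rw [← Finset.sum_div, div_eq_iff hK]
  have h1 : ∑ e ∈ E, (K.filter (fun M => e ∈ M)).card = 3 * K.card := by
    simp only [Finset.card_filter]
    rw [Finset.sum_comm, Finset.sum_congr rfl h3]
    simp [mul_comm]
  exact_mod_cast h1

lemma rbo₀ : ringBondOrder H₀ (6, 0) = 3 :=
  avg (kekule H₀) (hexEdges (6, 0)) kekule_nonempty₀ (fun _ hM => three hM)

theorem result : ∃ H : Finset Pt, IsBenzenoid H ∧ 2 ≤ H.card ∧ 1 ≤ (kekule H).card ∧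
    ∃ h ∈ H, ringBondOrder H h = 3 :=
  ⟨H₀, benzenoid₀, by decide +kernel, Finset.card_pos.mpr kekule_nonempty₀, (6, 0),
    by decide +kernel, rbo₀⟩

end Pool.Agent.Results.MP_64a46a_co.RingBondOrderThree
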